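import Mathlib

/-! Helper file for `MP_ab13d2_an`: the conformal maps `cosh` (half-strip to the upper half-plane),
its inverse, the square root of numbers in the upper half-plane and the Cayley map. -/

open Complex

namespace Pool.Agent.Q7.TS

/-! ### Square root -/

/-- The principal square root. -/
noncomputable def sq (w : ℂ) : ℂ := Complex.exp (Complex.log w / 2)

lemma sq_sq {w : ℂ} (hw : w ≠ 0) : sq w ^ 2 = w := by
  rw [sq, ← Complex.exp_nat_mul]
  push_cast
  rw [mul_div_cancel₀ _ (two_ne_zero), Complex.exp_log hw]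

lemma sq_re_pos {w : ℂ} (hw : 0 < w.im) : 0 < (sq w).re := by
  rw [sq, Complex.exp_re]
  apply mul_pos (Real.exp_pos _)
  have h1 : (Complex.log w / 2).im = Complex.arg w / 2 := by
    rw [show (Complex.log w / 2) = Complex.log w / (2 : ℝ) by norm_num, Complex.div_ofReal_im,
      Complex.log_im]
  rw [h1]
  have h2 := Complex.arg_nonneg_iff.2 hw.le
  have h3 := Complex.arg_le_pi w
  have h4 : Complex.arg w ≠ Real.pi := by
    intro h
    rw [Complex.arg_eq_pi_iff] at h
    linarith [h.2]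
  have h5 : Complex.arg w < Real.pi := lt_of_le_of_ne h3 h4
  exact Real.cos_pos_of_mem_Ioo ⟨by linarith, by linarith⟩

lemma arg_pos {w : ℂ} (hw : 0 < w.im) : 0 < Complex.arg w := by
  refine lt_of_le_of_ne (Complex.arg_nonneg_iff.2 hw.le) ?_
  intro h
  have := (Complex.arg_eq_zero_iff.1 h.symm).2
  linarith

lemma arg_lt_pi {w : ℂ} (hw : 0 < w.im) : Complex.arg w < Real.pi := by
  refine lt_of_le_of_ne (Complex.arg_le_pi w) ?_
  intro h
  rw [Complex.arg_eq_pi_iff] at h
  linarith [h.2]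

lemma sq_im_pos {w : ℂ} (hw : 0 < w.im) : 0 < (sq w).im := by
  rw [sq, Complex.exp_im]
  apply mul_pos (Real.exp_pos _)
  have h1 : (Complex.log w / 2).im = Complex.arg w / 2 := by
    rw [show (Complex.log w / 2) = Complex.log w / (2 : ℝ) by norm_num, Complex.div_ofReal_im,
      Complex.log_im]
  rw [h1]
  have h2 := arg_pos hw
  have h5 := arg_lt_pi hw
  exact Real.sin_pos_of_pos_of_lt_pi (by linarith) (by linarith [Real.pi_pos])

lemma ne_zero_of_im_pos {w : ℂ} (hw : 0 < w.im) : w ≠ 0 := by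
  intro h; rw [h] at hw; simp at hw

lemma mem_slit {w : ℂ} (hw : 0 < w.im) : w ∈ Complex.slitPlane := by
  rw [Complex.mem_slitPlane_iff]; right; exact hw.ne'

lemma sq_im_mul {w : ℂ} (hw : 0 < w.im) : 2 * ((sq w).re * (sq w).im) = w.im := by
  have h := congrArg Complex.im (sq_sq (ne_zero_of_im_pos hw))
  rw [pow_two, Complex.mul_im] at h
  linarith

lemma sq_re_sub {w : ℂ} (hw : 0 < w.im) : (sq w).re ^ 2 - (sq w).im ^ 2 = w.re := by
  have h := congrArg Complex.re (sq_sq (ne_zero_of_im_pos hw))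
  rw [pow_two, Complex.mul_re] at h
  linarith

lemma eq_of_sq_eq {a b : ℂ} (ha : 0 < a.re) (hb : 0 < b.re) (h : a ^ 2 = b ^ 2) : a = b := by
  rcases sq_eq_sq_iff_eq_or_eq_neg.1 h with h | h
  · exact h
  · exfalso
    rw [h, Complex.neg_re] at ha
    linarith

lemma sq_pow {a : ℂ} (ha : 0 < a.re) (ha' : 0 < a.im) : sq (a ^ 2) = a := by
  have h1 : 0 < (a ^ 2).im := by
    rw [pow_two, Complex.mul_im]; nlinarith [mul_pos ha ha']
  exact eq_of_sq_eq (sq_re_pos h1) ha (sq_sq (ne_zero_of_im_pos h1))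

lemma differentiableAt_sq {w : ℂ} (hw : 0 < w.im) : DifferentiableAt ℂ sq w := by
  unfold sq
  exact ((differentiableAt_id.clog (mem_slit hw)).div_const 2).cexp

/-! ### The half-strip -/

/-- The half-strip `Re > 0`, `0 < Im < π`. -/
def S : Set ℂ := {z | 0 < z.re ∧ 0 < z.im ∧ z.im < Real.pi}

lemma cosh_re (z : ℂ) : (Complex.cosh z).re = Real.cosh z.re * Real.cos z.im := by
  conv_lhs => rw [← Complex.re_add_im z, Complex.cosh_add, Complex.cosh_mul_I, Complex.sinh_mul_I]
  rw [← Complex.ofReal_cosh, ← Complex.ofReal_cos, ← Complex.ofReal_sinh, ← Complex.ofReal_sin]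
  simp only [Complex.add_re, Complex.add_im, Complex.mul_re, Complex.mul_im, Complex.ofReal_re,
    Complex.ofReal_im, Complex.I_re, Complex.I_im]
  ring

lemma cosh_im (z : ℂ) : (Complex.cosh z).im = Real.sinh z.re * Real.sin z.im := by
  conv_lhs => rw [← Complex.re_add_im z, Complex.cosh_add, Complex.cosh_mul_I, Complex.sinh_mul_I]
  rw [← Complex.ofReal_cosh, ← Complex.ofReal_cos, ← Complex.ofReal_sinh, ← Complex.ofReal_sin]
  simp only [Complex.add_re, Complex.add_im, Complex.mul_re, Complex.mul_im, Complex.ofReal_re,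
    Complex.ofReal_im, Complex.I_re, Complex.I_im]
  ring

lemma cosh_im_pos {z : ℂ} (hz : z ∈ S) : 0 < (Complex.cosh z).im := by
  rw [cosh_im]
  exact mul_pos (Real.sinh_pos_iff.2 hz.1) (Real.sin_pos_of_pos_of_lt_pi hz.2.1 hz.2.2)

/-- `cosh` is injective on the half-strip. -/
lemma cosh_inj {a b : ℂ} (ha : a ∈ S) (hb : b ∈ S) (h : Complex.cosh a = Complex.cosh b) :
    a = b := by
  have h0 : Complex.exp a * Complex.exp (-a) = 1 := by rw [← Complex.exp_add]; simp
  have h1 : Complex.exp b * Complex.exp (-b) = 1 := by rw [← Complex.exp_add]; simp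
  have h2 : Complex.exp a + Complex.exp (-a) = Complex.exp b + Complex.exp (-b) := by
    have := h
    rw [Complex.cosh, Complex.cosh] at this
    linear_combination 2 * this
  have h3 : (Complex.exp a - Complex.exp b) * (Complex.exp a * Complex.exp b - 1) = 0 := by
    have e : Complex.exp a * Complex.exp b * (Complex.exp a + Complex.exp (-a))
        = Complex.exp a * Complex.exp b * (Complex.exp b + Complex.exp (-b)) := by rw [h2]
    linear_combination e - Complex.exp b * h0 + Complex.exp a * h1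
  rcases mul_eq_zero.1 h3 with h4 | h4
  · have h5 : Complex.exp a = Complex.exp b := sub_eq_zero.1 h4
    have hπ := Real.pi_pos
    have h6 := congrArg Complex.log h5
    rwa [Complex.log_exp (by linarith [ha.2.1]) ha.2.2.le,
      Complex.log_exp (by linarith [hb.2.1]) hb.2.2.le] at h6
  · exfalso
    have h5 : Complex.exp (a + b) = 1 := by rw [Complex.exp_add]; exact sub_eq_zero.1 h4
    have h6 := congrArg (fun z : ℂ => ‖z‖) h5
    simp only [Complex.norm_exp, norm_one, Real.exp_eq_one_iff, Complex.add_re] at h6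
    linarith [ha.1, hb.1]

/-- The number `u = w + √(w-1) √(w+1)`. -/
noncomputable def U (w : ℂ) : ℂ := w + sq (w - 1) * sq (w + 1)

lemma U_eq {w : ℂ} (hw : 0 < w.im) : U w * (2 * w - U w) = 1 := by
  have h1 : sq (w - 1) ^ 2 = w - 1 := sq_sq (ne_zero_of_im_pos (by simpa using hw))
  have h2 : sq (w + 1) ^ 2 = w + 1 := sq_sq (ne_zero_of_im_pos (by simpa using hw))
  unfold U
  linear_combination (-(sq (w + 1) ^ 2)) * h1 - (w - 1) * h2

lemma U_im_pos {w : ℂ} (hw : 0 < w.im) : 0 < (U w).im := by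
  have h1 : 0 < (w - 1).im := by simpa using hw
  have h2 : 0 < (w + 1).im := by simpa using hw
  rw [U, Complex.add_im, Complex.mul_im]
  have := mul_pos (sq_re_pos h1) (sq_im_pos h2)
  have := mul_pos (sq_im_pos h1) (sq_re_pos h2)
  linarith

lemma U_norm {w : ℂ} (hw : 0 < w.im) : 1 < ‖U w‖ := by
  have h0 := U_im_pos hw
  have hne : U w ≠ 0 := ne_zero_of_im_pos h0
  have h1 : (U w)⁻¹ = 2 * w - U w := by
    rw [inv_eq_iff_eq_inv]; exact eq_inv_of_mul_eq_one_left (U_eq hw)
  have h2 := congrArg Complex.im h1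
  rw [Complex.inv_im, Complex.sub_im] at h2
  have h3 : (2 * w).im = 2 * w.im := by simp
  rw [h3] at h2
  have h4 : 0 < Complex.normSq (U w) := Complex.normSq_pos.2 hne
  have h5 : (U w).im / Complex.normSq (U w) < (U w).im := by
    have : -(U w).im / Complex.normSq (U w) = -((U w).im / Complex.normSq (U w)) := by ring
    rw [this] at h2
    linarith
  rw [div_lt_iff₀ h4] at h5
  have h6 : 1 < Complex.normSq (U w) := by
    by_contra h
    push Not at h
    nlinarith
  rw [Complex.normSq_eq_norm_sq] at h6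
  nlinarith [norm_nonneg (U w)]

/-- The inverse of `cosh` on the upper half-plane. -/
noncomputable def L (w : ℂ) : ℂ := Complex.log (U w)

lemma L_mem {w : ℂ} (hw : 0 < w.im) : L w ∈ S := by
  refine ⟨?_, ?_, ?_⟩
  · rw [L, Complex.log_re]; exact Real.log_pos (U_norm hw)
  · rw [L, Complex.log_im]; exact arg_pos (U_im_pos hw)
  · rw [L, Complex.log_im]; exact arg_lt_pi (U_im_pos hw)

lemma cosh_L {w : ℂ} (hw : 0 < w.im) : Complex.cosh (L w) = w := by
  have hne : U w ≠ 0 := ne_zero_of_im_pos (U_im_pos hw)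
  rw [Complex.cosh, L, Complex.exp_neg, Complex.exp_log hne]
  have h1 : (U w)⁻¹ = 2 * w - U w := by
    rw [inv_eq_iff_eq_inv]; exact eq_inv_of_mul_eq_one_left (U_eq hw)
  rw [h1]; ring

lemma L_cosh {z : ℂ} (hz : z ∈ S) : L (Complex.cosh z) = z :=
  cosh_inj (L_mem (cosh_im_pos hz)) hz (cosh_L (cosh_im_pos hz))

lemma differentiableAt_L {w : ℂ} (hw : 0 < w.im) : DifferentiableAt ℂ L w := by
  have h1 : 0 < (w - 1).im := by simpa using hw
  have h2 : 0 < (w + 1).im := by simpa using hw
  have hU : DifferentiableAt ℂ U w := by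
    unfold U
    refine differentiableAt_id.add (DifferentiableAt.mul ?_ ?_)
    · exact DifferentiableAt.comp (g := sq) w (differentiableAt_sq h1)
        (differentiableAt_id.sub_const 1)
    · exact DifferentiableAt.comp (g := sq) w (differentiableAt_sq h2)
        (differentiableAt_id.add_const 1)
  exact hU.clog (mem_slit (U_im_pos hw))

/-- The semigroup on the half-strip. -/
noncomputable def E (t : ℝ) (z : ℂ) : ℂ := sq (z ^ 2 + t)

lemma im_sq_pos {z : ℂ} (hz : z ∈ S) (t : ℝ) : 0 < (z ^ 2 + t).im := by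
  rw [Complex.add_im, Complex.ofReal_im, pow_two, Complex.mul_im]
  nlinarith [mul_pos hz.1 hz.2.1]

lemma E_prod {z : ℂ} (hz : z ∈ S) (t : ℝ) : (E t z).re * (E t z).im = z.re * z.im := by
  have h := sq_im_mul (im_sq_pos hz t)
  rw [Complex.add_im, Complex.ofReal_im, pow_two, Complex.mul_im] at h
  unfold E
  rw [pow_two]
  linarith

lemma E_diff {z : ℂ} (hz : z ∈ S) (t : ℝ) :
    (E t z).re ^ 2 - (E t z).im ^ 2 = z.re ^ 2 - z.im ^ 2 + t := by
  have h := sq_re_sub (im_sq_pos hz t)
  have h' : (z ^ 2 + t : ℂ).re = z.re ^ 2 - z.im ^ 2 + t := by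
    rw [Complex.add_re, Complex.ofReal_re, pow_two, Complex.mul_re]; ring
  rw [h'] at h
  exact h

lemma E_im_le {z : ℂ} (hz : z ∈ S) {t : ℝ} (ht : 0 ≤ t) : (E t z).im ≤ z.im := by
  by_contra hlt
  push Not at hlt
  have hre : 0 < (E t z).re := sq_re_pos (im_sq_pos hz t)
  have him : 0 < (E t z).im := sq_im_pos (im_sq_pos hz t)
  have h1 := E_prod hz t
  have h2 := E_diff hz t
  have h3 : (E t z).re < z.re := by
    by_contra h
    push Not at h
    have : z.re * z.im < (E t z).re * (E t z).im := by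
      have := mul_lt_mul_of_pos_left hlt hz.1
      have := mul_le_mul_of_nonneg_right h him.le
      linarith
    linarith
  nlinarith [hz.1, hz.2.1]

lemma E_mem {z : ℂ} (hz : z ∈ S) {t : ℝ} (ht : 0 ≤ t) : E t z ∈ S :=
  ⟨sq_re_pos (im_sq_pos hz t), sq_im_pos (im_sq_pos hz t), (E_im_le hz ht).trans_lt hz.2.2⟩

lemma E_sq {z : ℂ} (hz : z ∈ S) (t : ℝ) : E t z ^ 2 = z ^ 2 + t :=
  sq_sq (ne_zero_of_im_pos (im_sq_pos hz t))

lemma E_zero {z : ℂ} (hz : z ∈ S) : E 0 z = z := by
  rw [E, Complex.ofReal_zero, add_zero]; exact sq_pow hz.1 hz.2.1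

lemma E_add {z : ℂ} (hz : z ∈ S) (s t : ℝ) : E (t + s) z = E t (E s z) := by
  rw [E, E, E_sq hz]; congr 1; push_cast; ring

/-! ### The Cayley map -/

/-- The Cayley map, from the disc to the upper half-plane. -/
noncomputable def cay (z : ℂ) : ℂ := I * (1 + z) / (1 - z)

/-- The inverse Cayley map. -/
noncomputable def inv (w : ℂ) : ℂ := (w - I) / (w + I)

lemma add_I_ne {w : ℂ} (hw : 0 < w.im) : w + I ≠ 0 := by
  apply ne_zero_of_im_pos; rw [Complex.add_im, Complex.I_im]; linarith

lemma one_sub_ne {z : ℂ} (hz : ‖z‖ < 1) : 1 - z ≠ 0 := by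
  intro h
  have : z = 1 := (sub_eq_zero.1 h).symm
  rw [this, norm_one] at hz
  exact lt_irrefl _ hz

lemma cay_im {z : ℂ} (hz : ‖z‖ < 1) : 0 < (cay z).im := by
  have hne := one_sub_ne hz
  have h1 : (cay z).im = (1 - Complex.normSq z) / Complex.normSq (1 - z) := by
    rw [cay, Complex.div_im]
    simp only [Complex.mul_im, Complex.mul_re, Complex.I_re, Complex.I_im, Complex.add_re,
      Complex.add_im, Complex.one_re, Complex.one_im, Complex.sub_re, Complex.sub_im,
      Complex.normSq_apply]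
    ring
  rw [h1]
  apply div_pos
  · rw [Complex.normSq_eq_norm_sq]; nlinarith [norm_nonneg z]
  · exact Complex.normSq_pos.2 hne

lemma inv_norm {w : ℂ} (hw : 0 < w.im) : ‖inv w‖ < 1 := by
  have hne := add_I_ne hw
  rw [inv, norm_div, div_lt_one (norm_pos_iff.2 hne)]
  have h : ‖w - I‖ ^ 2 < ‖w + I‖ ^ 2 := by
    rw [← Complex.normSq_eq_norm_sq, ← Complex.normSq_eq_norm_sq]
    simp only [Complex.normSq_apply, Complex.sub_re, Complex.sub_im, Complex.add_re,
      Complex.add_im, Complex.I_re, Complex.I_im]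
    nlinarith
  exact lt_of_pow_lt_pow_left₀ 2 (norm_nonneg _) h

lemma cay_inv {w : ℂ} (hw : 0 < w.im) : cay (inv w) = w := by
  have hne := add_I_ne hw
  have h1 : 1 - inv w = 2 * I / (w + I) := by rw [inv]; field_simp; ring
  have h2 : 1 + inv w = 2 * w / (w + I) := by rw [inv]; field_simp; ring
  rw [cay, h1, h2]
  field_simp

lemma inv_cay {z : ℂ} (hz : ‖z‖ < 1) : inv (cay z) = z := by
  have hne := one_sub_ne hz
  have h1 : cay z + I = 2 * I / (1 - z) := by rw [cay]; field_simp; ring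
  have h2 : cay z - I = 2 * I * z / (1 - z) := by rw [cay]; field_simp; ring
  rw [inv, h1, h2]
  field_simp

lemma differentiableAt_cay {z : ℂ} (hz : ‖z‖ < 1) : DifferentiableAt ℂ cay z := by
  unfold cay
  exact ((differentiableAt_id.const_add 1).const_mul I).div (differentiableAt_id.const_sub 1)
    (one_sub_ne hz)

lemma differentiableAt_inv {w : ℂ} (hw : 0 < w.im) : DifferentiableAt ℂ inv w := by
  unfold inv
  exact (differentiableAt_id.sub_const I).div (differentiableAt_id.add_const I) (add_I_ne hw)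

lemma inv_sub_one {w : ℂ} (hw : 0 < w.im) : ‖inv w - 1‖ ≤ 2 / ‖w‖ := by
  have hne := add_I_ne hw
  have h1 : inv w - 1 = -(2 * I) / (w + I) := by rw [inv]; field_simp; ring
  have h0 : 0 < ‖w‖ := norm_pos_iff.2 (ne_zero_of_im_pos hw)
  rw [h1, norm_div, norm_neg, norm_mul, Complex.norm_I, mul_one]
  have h2 : ‖(2 : ℂ)‖ = 2 := by simp
  rw [h2]
  apply div_le_div_of_nonneg_left (by norm_num) h0
  have h : ‖w‖ ^ 2 ≤ ‖w + I‖ ^ 2 := by
    rw [← Complex.normSq_eq_norm_sq, ← Complex.normSq_eq_norm_sq]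
    simp only [Complex.normSq_apply, Complex.add_re, Complex.add_im, Complex.I_re, Complex.I_im]
    nlinarith
  exact le_of_sq_le_sq h (norm_nonneg _) |> fun h => h

end Pool.Agent.Q7.TS
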