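import Pool.Agent.Q7.TS.Maps

/-! Helper file for `MP_ab13d2_an`: the semigroup and the estimate of the tangential speed. -/

open Complex Set Filter Topology Metric

namespace Pool.Agent.Q7.TS

/-- The semigroup. -/
noncomputable def phi (t : ℝ) (z : ℂ) : ℂ := inv (Complex.cosh (E t (L (cay z))))

/-- The Koenigs function. -/
noncomputable def koe (z : ℂ) : ℂ := I * L (cay z) ^ 2

lemma mem_ball_iff {z : ℂ} : z ∈ ball (0 : ℂ) 1 ↔ ‖z‖ < 1 := by simp

lemma L_cay_mem {z : ℂ} (hz : ‖z‖ < 1) : L (cay z) ∈ S := L_mem (cay_im hz)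

lemma phi_norm {t : ℝ} (ht : 0 ≤ t) {z : ℂ} (hz : ‖z‖ < 1) : ‖phi t z‖ < 1 :=
  inv_norm (cosh_im_pos (E_mem (L_cay_mem hz) ht))

lemma L_cay_phi {t : ℝ} (ht : 0 ≤ t) {z : ℂ} (hz : ‖z‖ < 1) :
    L (cay (phi t z)) = E t (L (cay z)) := by
  have h := E_mem (L_cay_mem hz) ht
  rw [phi, cay_inv (cosh_im_pos h), L_cosh h]

lemma phi_zero {z : ℂ} (hz : ‖z‖ < 1) : phi 0 z = z := by
  rw [phi, E_zero (L_cay_mem hz), cosh_L (cay_im hz), inv_cay hz]

lemma phi_add {s t : ℝ} (hs : 0 ≤ s) {z : ℂ} (hz : ‖z‖ < 1) :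
    phi (t + s) z = phi t (phi s z) := by
  rw [phi, phi, L_cay_phi hs hz, E_add (L_cay_mem hz)]

lemma koe_phi {t : ℝ} (ht : 0 ≤ t) {z : ℂ} (hz : ‖z‖ < 1) : koe (phi t z) = koe z + I * t := by
  rw [koe, koe, L_cay_phi ht hz, E_sq (L_cay_mem hz)]; ring

lemma differentiableAt_phi {t : ℝ} (ht : 0 ≤ t) {z : ℂ} (hz : ‖z‖ < 1) :
    DifferentiableAt ℂ (phi t) z := by
  have h1 : DifferentiableAt ℂ (fun z => L (cay z)) z :=
    DifferentiableAt.comp (g := L) z (differentiableAt_L (cay_im hz)) (differentiableAt_cay hz)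
  have h2 : DifferentiableAt ℂ (fun z => E t (L (cay z))) z := by
    unfold E
    exact DifferentiableAt.comp (g := sq) z (differentiableAt_sq (im_sq_pos (L_cay_mem hz) t))
      ((h1.pow 2).add_const _)
  have h3 : DifferentiableAt ℂ (fun z => Complex.cosh (E t (L (cay z)))) z := h2.ccosh
  exact DifferentiableAt.comp (g := inv) z
    (differentiableAt_inv (cosh_im_pos (E_mem (L_cay_mem hz) ht))) h3

lemma differentiableAt_koe {z : ℂ} (hz : ‖z‖ < 1) : DifferentiableAt ℂ koe z := by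
  have h1 : DifferentiableAt ℂ (fun z => L (cay z)) z :=
    DifferentiableAt.comp (g := L) z (differentiableAt_L (cay_im hz)) (differentiableAt_cay hz)
  exact (h1.pow 2).const_mul I

lemma koe_inj {z w : ℂ} (hz : ‖z‖ < 1) (hw : ‖w‖ < 1) (h : koe z = koe w) : z = w := by
  have h1 : L (cay z) ^ 2 = L (cay w) ^ 2 := mul_left_cancel₀ I_ne_zero h
  have h2 : L (cay z) = L (cay w) := eq_of_sq_eq (L_cay_mem hz).1 (L_cay_mem hw).1 h1
  have h3 : cay z = cay w := by rw [← cosh_L (cay_im hz), h2, cosh_L (cay_im hw)]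
  rw [← inv_cay hz, h3, inv_cay hw]

lemma continuousAt_phi {t : ℝ} (ht : 0 ≤ t) {z : ℂ} (hz : ‖z‖ < 1) :
    ContinuousAt (fun p : ℝ × ℂ => phi p.1 p.2) (t, z) := by
  have h1 : ContinuousAt (fun p : ℝ × ℂ => L (cay p.2)) (t, z) := by
    have h := (DifferentiableAt.comp (g := L) z (differentiableAt_L (cay_im hz))
      (differentiableAt_cay hz)).continuousAt
    exact ContinuousAt.comp (f := fun p : ℝ × ℂ => p.2) (g := fun z => L (cay z)) h
      continuousAt_snd
  have h2 : ContinuousAt (fun p : ℝ × ℂ => L (cay p.2) ^ 2 + (p.1 : ℂ)) (t, z) :=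
    (h1.pow 2).add (Complex.continuous_ofReal.continuousAt.comp continuousAt_fst)
  have h3 : ContinuousAt (fun p : ℝ × ℂ => E p.1 (L (cay p.2))) (t, z) := by
    have h := (differentiableAt_sq (im_sq_pos (L_cay_mem hz) t)).continuousAt
    exact ContinuousAt.comp (f := fun p : ℝ × ℂ => L (cay p.2) ^ 2 + (p.1 : ℂ)) (g := sq) h h2
  have h4 : ContinuousAt (fun p : ℝ × ℂ => Complex.cosh (E p.1 (L (cay p.2)))) (t, z) :=
    Complex.continuous_cosh.continuousAt.comp h3
  have h5 := (differentiableAt_inv (cosh_im_pos (E_mem (L_cay_mem hz) ht))).continuousAt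
  exact ContinuousAt.comp (f := fun p : ℝ × ℂ => Complex.cosh (E p.1 (L (cay p.2)))) (g := inv)
    h5 h4

/-- Convergence to the point `1`, uniformly on the disc. -/
lemma phi_sub_one {t : ℝ} (ht : Real.pi ^ 2 < t) {z : ℂ} (hz : ‖z‖ < 1) :
    ‖phi t z - 1‖ ≤ 2 / Real.sqrt (t - Real.pi ^ 2) := by
  have ht0 : 0 ≤ t := by nlinarith [sq_nonneg Real.pi]
  have hS := L_cay_mem hz
  have hE := E_mem hS ht0
  have him := cosh_im_pos hE
  have h1 : Real.sqrt (t - Real.pi ^ 2) ≤ ‖Complex.cosh (E t (L (cay z)))‖ := by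
    set η := E t (L (cay z)) with hη
    have h2 : t - Real.pi ^ 2 ≤ η.re ^ 2 := by
      have := E_diff hS t
      have h4 : (L (cay z)).im ^ 2 ≤ Real.pi ^ 2 := by
        have := hS.2.1; have := hS.2.2
        nlinarith
      nlinarith [sq_nonneg η.im, sq_nonneg (L (cay z)).re]
    have h3 : Real.sqrt (t - Real.pi ^ 2) ≤ η.re := Real.sqrt_le_iff.2 ⟨hE.1.le, h2⟩
    have h4 : η.re ≤ Real.sinh η.re := Real.self_le_sinh_iff.2 hE.1.le
    have h5 : Real.sinh η.re ≤ ‖Complex.cosh η‖ := by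
      apply le_of_sq_le_sq _ (norm_nonneg _)
      rw [← Complex.normSq_eq_norm_sq, Complex.normSq_apply, cosh_re, cosh_im]
      have e1 := Real.cosh_sq η.re
      have e2 := Real.sin_sq_add_cos_sq η.im
      have : Real.cosh η.re * Real.cos η.im * (Real.cosh η.re * Real.cos η.im)
          + Real.sinh η.re * Real.sin η.im * (Real.sinh η.re * Real.sin η.im)
          = Real.sinh η.re ^ 2 + Real.cos η.im ^ 2 := by
        linear_combination (Real.cos η.im ^ 2) * e1 + (Real.sinh η.re ^ 2) * e2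
      rw [this]
      nlinarith [sq_nonneg (Real.cos η.im)]
    linarith
  have h0 : 0 < Real.sqrt (t - Real.pi ^ 2) := Real.sqrt_pos.2 (by linarith)
  exact (inv_sub_one him).trans (div_le_div_of_nonneg_left (by norm_num) h0 h1)

/-! ### The image of the Koenigs function -/

lemma koe_re_neg {z : ℂ} (hz : ‖z‖ < 1) : (koe z).re < 0 := by
  have h := L_cay_mem hz
  rw [koe, Complex.mul_re, I_re, I_im, pow_two, Complex.mul_im]
  nlinarith [mul_pos h.1 h.2.1]

lemma exists_koe {w : ℂ} (hw : w.re < 0) : ∃ t : ℝ, 0 ≤ t ∧ ∃ z : ℂ, ‖z‖ < 1 ∧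
    koe z = w + t * I := by
  set v : ℂ := -I * w with hv
  have hvim : v.im = -w.re := by rw [hv]; simp
  have hvpos : 0 < v.im := by rw [hvim]; linarith
  set t : ℝ := |v.re| + v.im ^ 2 with ht
  have ht0 : 0 ≤ t := by positivity
  have h1 : 0 < (v + t).im := by simpa using hvpos
  have h2 := sq_im_mul h1
  have h3 := sq_re_sub h1
  have hre := sq_re_pos h1
  have him := sq_im_pos h1
  have h4 : (v + t).re = v.re + t := by simp
  have h5 : (v + t).im = v.im := by simp
  rw [h4] at h3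
  rw [h5] at h2
  have h6 : v.im ≤ (sq (v + t)).re := by
    have : v.im ^ 2 ≤ (sq (v + t)).re ^ 2 := by
      have := neg_abs_le v.re
      nlinarith [sq_nonneg (sq (v + t)).im]
    exact le_of_sq_le_sq this hre.le
  have h7 : (sq (v + t)).im < Real.pi := by
    have h8 : (sq (v + t)).im ≤ 1 := by
      by_contra h
      push Not at h
      nlinarith
    linarith [Real.pi_gt_three]
  have hS : sq (v + t) ∈ S := ⟨hre, him, h7⟩
  refine ⟨t, ht0, inv (Complex.cosh (sq (v + t))), inv_norm (cosh_im_pos hS), ?_⟩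
  rw [koe, cay_inv (cosh_im_pos hS), L_cosh hS, sq_sq (ne_zero_of_im_pos h1), hv]
  linear_combination (-w) * I_sq

/-! ### The tangential speed -/

lemma key_norm {w : ℂ} (hw : 0 < w.im) :
    ‖((((‖w‖ - 1) / (‖w‖ + 1) : ℝ) : ℂ) - inv w) /
      (1 - (((‖w‖ - 1) / (‖w‖ + 1) : ℝ) : ℂ) * inv w)‖ ^ 2 * (‖w‖ + w.im) = ‖w‖ - w.im := by
  set R : ℝ := ‖w‖ with hR
  have hRpos : 0 < R := norm_pos_iff.2 (ne_zero_of_im_pos hw)
  have hne := add_I_ne hw
  have hR1 : (R : ℂ) + 1 ≠ 0 := by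
    have : (R : ℂ) + 1 = ((R + 1 : ℝ) : ℂ) := by push_cast; rfl
    rw [this]; exact_mod_cast (by linarith : R + 1 ≠ 0)
  have hRsq : R ^ 2 = w.re ^ 2 + w.im ^ 2 := by
    rw [hR, ← Complex.normSq_eq_norm_sq, Complex.normSq_apply]; ring
  have hne2 : w + I * R ≠ 0 := by
    apply ne_zero_of_im_pos
    simp only [Complex.add_im, Complex.mul_im, I_re, I_im, Complex.ofReal_re, Complex.ofReal_im]
    linarith
  have e : ((((R - 1) / (R + 1) : ℝ) : ℂ) - inv w) / (1 - (((R - 1) / (R + 1) : ℝ) : ℂ) * inv w)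
      = (I * R - w) / (w + I * R) := by
    have e1 : (((R - 1) / (R + 1) : ℝ) : ℂ) - inv w
        = 2 * (I * R - w) / ((R + 1) * (w + I)) := by
      rw [inv]; push_cast; field_simp; ring
    have e2 : 1 - (((R - 1) / (R + 1) : ℝ) : ℂ) * inv w
        = 2 * (w + I * R) / ((R + 1) * (w + I)) := by
      rw [inv]; push_cast; field_simp; ring
    rw [e1, e2]
    field_simp
  rw [e, norm_div, div_pow, ← Complex.normSq_eq_norm_sq, ← Complex.normSq_eq_norm_sq]
  have n1 : Complex.normSq (I * R - w) = 2 * R * (R - w.im) := by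
    simp only [Complex.normSq_apply, Complex.sub_re, Complex.sub_im, Complex.mul_re,
      Complex.mul_im, I_re, I_im, Complex.ofReal_re, Complex.ofReal_im]
    linear_combination (-1 : ℝ) * hRsq
  have n2 : Complex.normSq (w + I * R) = 2 * R * (R + w.im) := by
    simp only [Complex.normSq_apply, Complex.add_re, Complex.add_im, Complex.mul_re,
      Complex.mul_im, I_re, I_im, Complex.ofReal_re, Complex.ofReal_im]
    linear_combination (-1 : ℝ) * hRsq
  rw [n1, n2]
  have : R + w.im ≠ 0 := by linarith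
  field_simp

/-- The estimate of the logarithm. -/
lemma key_log {w : ℂ} (hw : 0 < w.im) {τ : ℝ} (h0 : 0 ≤ τ)
    (hτ : τ ^ 2 * (‖w‖ + w.im) = ‖w‖ - w.im) :
    1 / 2 * Real.log ((1 + τ) / (1 - τ)) ≤ 1 / 2 * Real.log (4 * (‖w‖ / w.im)) := by
  have hle : w.im ≤ ‖w‖ := (le_abs_self _).trans (Complex.abs_im_le_norm w)
  set R : ℝ := ‖w‖
  have hRpos : 0 < R := lt_of_lt_of_le hw hle
  have h1 : τ < 1 := by
    by_contra h
    push Not at h
    have : 1 ≤ τ ^ 2 := by nlinarith
    nlinarith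
  have h2 : (1 + τ) / (1 - τ) ≤ 4 * (R / w.im) := by
    rw [← mul_div_assoc, div_le_div_iff₀ (by linarith) hw]
    have h3 : (1 - τ) * ((1 + τ) * (R + w.im)) = 2 * w.im := by nlinarith
    have h4 : (1 + τ) * (R + w.im) ≤ 4 * R := by nlinarith
    have h5 : 2 * w.im ≤ (1 - τ) * (4 * R) := by
      rw [← h3]; exact mul_le_mul_of_nonneg_left h4 (by linarith)
    nlinarith
  have h3 : 0 < (1 + τ) / (1 - τ) := div_pos (by linarith) (by linarith)
  have := Real.log_le_log h3 h2
  linarith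

/-- The ratio along the orbit of `0`. -/
lemma ratio_le : ∃ D : ℝ, 0 < D ∧ ∀ t : ℝ, 1 ≤ t →
    ‖Complex.cosh (E t (L (cay 0)))‖ / (Complex.cosh (E t (L (cay 0)))).im ≤ D * Real.sqrt t := by
  have h00 : ‖(0 : ℂ)‖ < 1 := by simp
  have hS := L_cay_mem h00
  have hcay : cay 0 = I := by rw [cay]; simp
  have hcosh := cosh_L (cay_im h00)
  set ζ := L (cay 0) with hζ
  rw [hcay] at hcosh
  have hre := congrArg Complex.re hcosh
  have him := congrArg Complex.im hcosh
  rw [cosh_re, I_re] at hre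
  rw [cosh_im, I_im] at him
  have hcos : Real.cos ζ.im = 0 := by
    rcases mul_eq_zero.1 hre with h | h
    · exact absurd h (Real.cosh_pos _).ne'
    · exact h
  have hb : ζ.im = Real.pi / 2 := by
    have h1 : Real.cos ζ.im = Real.cos (Real.pi / 2) := by rw [hcos, Real.cos_pi_div_two]
    exact Real.injOn_cos ⟨hS.2.1.le, hS.2.2.le⟩ ⟨by positivity, by linarith [Real.pi_pos]⟩ h1
  rw [hb, Real.sin_pi_div_two, mul_one] at him
  have ha := hS.1
  have hπ := Real.pi_pos
  refine ⟨Real.pi * Real.sqrt (ζ.re ^ 2 + 1) / (ζ.re * ζ.im), by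
    have := hS.2.1; positivity, fun t ht => ?_⟩
  have ht0 : (0 : ℝ) ≤ t := by linarith
  have hE := E_mem hS ht0
  have hp := E_prod hS t
  have hd := E_diff hS t
  have hle := E_im_le hS ht0
  set η := E t ζ with hη
  have hx : ζ.re ≤ η.re := by
    by_contra h
    push Not at h
    have h1 : η.re * η.im < ζ.re * ζ.im := by
      have := mul_lt_mul_of_pos_right h hE.2.1
      have := mul_le_mul_of_nonneg_left hle ha.le
      linarith
    linarith
  have hsinh : 1 ≤ Real.sinh η.re := by rw [← him]; exact Real.sinh_le_sinh.2 hx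
  have hcosh2 : Real.cosh η.re ≤ 2 * Real.sinh η.re := by
    have h1 : Real.cosh η.re - Real.sinh η.re = Real.exp (-η.re) := Real.cosh_sub_sinh _
    have h2 : Real.exp (-η.re) ≤ 1 := Real.exp_le_one_iff.2 (by linarith [hE.1])
    linarith
  have hnorm : ‖Complex.cosh η‖ ≤ Real.cosh η.re := by
    apply le_of_sq_le_sq _ (Real.cosh_pos _).le
    rw [← Complex.normSq_eq_norm_sq, Complex.normSq_apply, cosh_re, cosh_im]
    have e1 := Real.cosh_sq η.re
    have e2 := Real.sin_sq_add_cos_sq η.im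
    have : Real.cosh η.re * Real.cos η.im * (Real.cosh η.re * Real.cos η.im)
        + Real.sinh η.re * Real.sin η.im * (Real.sinh η.re * Real.sin η.im)
        = Real.cosh η.re ^ 2 - Real.sin η.im ^ 2 := by
      linear_combination (-(Real.sin η.im ^ 2)) * e1 + (Real.cosh η.re ^ 2) * e2
    rw [this]
    nlinarith [sq_nonneg (Real.sin η.im)]
  have hy2 : η.im ≤ Real.pi / 2 := by rw [← hb]; exact hle
  have hsin : 2 / Real.pi * η.im ≤ Real.sin η.im := Real.mul_le_sin hE.2.1.le hy2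
  have him2 := cosh_im_pos hE
  have hx2 : η.re ≤ Real.sqrt (ζ.re ^ 2 + 1) * Real.sqrt t := by
    rw [← Real.sqrt_mul (by positivity)]
    apply Real.le_sqrt_of_sq_le
    have : η.im ^ 2 ≤ ζ.im ^ 2 := by
      have := hE.2.1
      nlinarith
    nlinarith [sq_nonneg ζ.re]
  have hηim := hE.2.1
  have h1 : ‖Complex.cosh η‖ / (Complex.cosh η).im ≤ Real.pi / η.im := by
    rw [div_le_div_iff₀ him2 hηim, cosh_im]
    have h3 : ‖Complex.cosh η‖ * η.im ≤ 2 * Real.sinh η.re * η.im :=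
      mul_le_mul_of_nonneg_right (hnorm.trans hcosh2) hηim.le
    have h4 : 2 * Real.sinh η.re * η.im
        = Real.pi * (Real.sinh η.re * (2 / Real.pi * η.im)) := by
      field_simp
    have h5 : Real.pi * (Real.sinh η.re * (2 / Real.pi * η.im))
        ≤ Real.pi * (Real.sinh η.re * Real.sin η.im) := by
      apply mul_le_mul_of_nonneg_left _ hπ.le
      exact mul_le_mul_of_nonneg_left hsin (by linarith)
    linarith
  have h2 : Real.pi / η.im = Real.pi * η.re / (ζ.re * ζ.im) := by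
    rw [← hp]
    have := hE.1
    field_simp
  have h3 : 0 < ζ.re * ζ.im := mul_pos ha hS.2.1
  refine h1.trans ?_
  rw [h2, div_mul_eq_mul_div]
  apply div_le_div_of_nonneg_right _ h3.le
  rw [mul_assoc]
  exact mul_le_mul_of_nonneg_left hx2 hπ.le

end Pool.Agent.Q7.TS
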